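import Pool.Agent.T2H17.MP.Final

/-!
Sums over short intervals with coefficients `a(n) n^{it}` and polynomial phases: the majorant and its mean.
-/

set_option autoImplicit false

open MeasureTheory Filter Topology Finset

namespace Pool.Agent.T2H17.SI

open Pool.Agent.T2H17.MP (V J sv mem_V sv_mem ph ph_sv K K_le K_le' mean card_J card_V)

/-- `∑_{m ≤ H} a(x+m) (x+m)^{it} e(Q(m))` -/
noncomputable def S (a : ℕ → ℂ) (x H : ℕ) (Q : Polynomial ℝ) (t : ℝ) : ℂ :=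
  ∑ m ∈ Finset.Icc 1 H, a (x + m) * ((x + m : ℕ) : ℂ) ^ ((t : ℂ) * Complex.I) *
    Complex.exp (2 * Real.pi * Complex.I * ((Q.eval (m : ℝ) : ℝ) : ℂ))

/-- the product `∏ (x + v_i)` -/
def pr (x : ℕ) {k : ℕ} (v : Fin k → ℕ) : ℕ := ∏ i, (x + v i)

noncomputable def term (a : ℕ → ℂ) (x : ℕ) {k : ℕ} (v : Fin k → ℕ) (t : ℝ) : ℂ :=
  (∏ i, a (x + v i)) * Complex.exp (t * (Real.log ((pr x v : ℕ) : ℝ) * Complex.I))

noncomputable def Aj (a : ℕ → ℂ) (x k d H : ℕ) (j : Fin (d + 1) → ℕ) (t : ℝ) : ℂ :=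
  ∑ v ∈ (V k H).filter (fun v => sv d v = j), term a x v t

/-- the majorant of `‖S‖ ^ (2k)` -/
noncomputable def Y (a : ℕ → ℂ) (x k d H : ℕ) (t : ℝ) : ℝ :=
  ((J k d H).card : ℝ) * ∑ j ∈ J k d H, ‖Aj a x k d H j t‖ ^ 2

lemma pow_expand (a : ℕ → ℂ) (x k H : ℕ) (P : Polynomial ℝ) (t : ℝ) :
    S a x H P t ^ k = ∑ v ∈ V k H, term a x v t *
      Complex.exp (2 * Real.pi * Complex.I * ((∑ i, P.eval (v i : ℝ) : ℝ) : ℂ)) := by
  classical
  have h1 : S a x H P t ^ k = ∏ _i : Fin k, ∑ n ∈ Finset.Icc 1 H, a (x + n) *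
      ((x + n : ℕ) : ℂ) ^ ((t : ℂ) * Complex.I) *
      Complex.exp (2 * Real.pi * Complex.I * ((P.eval (n : ℝ) : ℝ) : ℂ)) := by
    rw [Finset.prod_const, Finset.card_univ, Fintype.card_fin]
    rfl
  rw [h1, Finset.prod_univ_sum]
  refine Finset.sum_congr rfl fun v hv => ?_
  have hv' : ∀ i, x + v i ≠ 0 := fun i => by
    have := (mem_V.mp hv i).1
    omega
  rw [Finset.prod_mul_distrib, Finset.prod_mul_distrib]
  unfold term pr
  congr 1
  · congr 1
    have e1 : ∀ i ∈ (Finset.univ : Finset (Fin k)), (((x + v i : ℕ) : ℂ)) ^ ((t : ℂ) * Complex.I) =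
        Complex.exp (t * (Real.log ((x + v i : ℕ) : ℝ) * Complex.I)) := by
      intro i _
      rw [Complex.cpow_def_of_ne_zero (by exact_mod_cast hv' i), ← Complex.natCast_log]
      congr 1
      ring
    rw [Finset.prod_congr rfl e1, ← Complex.exp_sum]
    congr 1
    rw [← Finset.mul_sum, ← Finset.sum_mul]
    congr 2
    rw [Nat.cast_prod, Real.log_prod (s := Finset.univ) (f := fun i => ((x + v i : ℕ) : ℝ))
      (fun i _ => by exact_mod_cast hv' i)]
    push_cast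
    rfl
  · rw [← Complex.exp_sum]
    congr 1
    push_cast
    rw [Finset.mul_sum]

lemma norm_pow_le (a : ℕ → ℂ) (x k d H : ℕ) (P : Polynomial ℝ) (hP : P.natDegree ≤ d) (t : ℝ) :
    ‖S a x H P t‖ ^ (2 * k) ≤ Y a x k d H t := by
  have h1 : S a x H P t ^ k = ∑ j ∈ J k d H,
      Aj a x k d H j t * Complex.exp (2 * Real.pi * Complex.I * ((ph P j : ℝ) : ℂ)) := by
    rw [pow_expand, ← Finset.sum_fiberwise_of_maps_to (fun v hv => sv_mem (d := d) hv)]
    refine Finset.sum_congr rfl fun j _ => ?_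
    unfold Aj
    rw [Finset.sum_mul]
    exact Finset.sum_congr rfl fun v hv => by rw [ph_sv P hP, (Finset.mem_filter.mp hv).2]
  have h2 : ‖S a x H P t‖ ^ k ≤ ∑ j ∈ J k d H, ‖Aj a x k d H j t‖ := by
    rw [← norm_pow, h1]
    refine (norm_sum_le _ _).trans (le_of_eq (Finset.sum_congr rfl fun j _ => ?_))
    rw [norm_mul]
    have : ‖Complex.exp (2 * Real.pi * Complex.I * ((ph P j : ℝ) : ℂ))‖ = 1 := by
      have e : 2 * (Real.pi : ℂ) * Complex.I * ((ph P j : ℝ) : ℂ) = ((2 * Real.pi * ph P j : ℝ) : ℂ) * Complex.I := by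
        push_cast
        ring
      rw [e, Complex.norm_exp_ofReal_mul_I]
    rw [this, mul_one]
  have h3 : ‖S a x H P t‖ ^ (2 * k) = (‖S a x H P t‖ ^ k) ^ 2 := by
    rw [← pow_mul, mul_comm]
  rw [h3]
  calc (‖S a x H P t‖ ^ k) ^ 2 ≤ (∑ j ∈ J k d H, ‖Aj a x k d H j t‖) ^ 2 :=
        pow_le_pow_left₀ (by positivity) h2 2
    _ ≤ ((J k d H).card : ℝ) * ∑ j ∈ J k d H, ‖Aj a x k d H j t‖ ^ 2 :=
        sq_sum_le_card_mul_sum_sq
    _ = Y a x k d H t := rfl

lemma cont_Aj (a : ℕ → ℂ) (x k d H : ℕ) (j : Fin (d + 1) → ℕ) : Continuous (Aj a x k d H j) := by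
  unfold Aj term
  fun_prop

lemma cont_Y (a : ℕ → ℂ) (x k d H : ℕ) : Continuous (Y a x k d H) := by
  unfold Y
  have := cont_Aj a x k d H
  fun_prop

lemma Y_nonneg (a : ℕ → ℂ) (x k d H : ℕ) (t : ℝ) : 0 ≤ Y a x k d H t := by
  unfold Y
  positivity

/-- the number of the tuples with the product `m` -/
def cnt (k x H m : ℕ) : ℕ := ((V k H).filter (fun w => pr x w = m)).card

lemma pr_pos {x k H : ℕ} {v : Fin k → ℕ} (hv : v ∈ V k H) : 1 ≤ pr x v := by
  refine Nat.one_le_iff_ne_zero.mpr (Finset.prod_ne_zero_iff.mpr fun i _ => ?_)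
  have := (mem_V.mp hv i).1
  omega

lemma pr_le {x k H : ℕ} {v : Fin k → ℕ} (hv : v ∈ V k H) : pr x v ≤ (x + H) ^ k := by
  calc pr x v ≤ ∏ _i : Fin k, (x + H) := Finset.prod_le_prod' fun i _ => by
        have := (mem_V.mp hv i).2
        omega
    _ = (x + H) ^ k := by simp

lemma K_far {T₀ T : ℝ} {m n M : ℕ} (hm : 1 ≤ m) (hn : 1 ≤ n) (hmM : m ≤ M) (hnM : n ≤ M) (hne : m ≠ n) :
    K T₀ T (Real.log m - Real.log n) ≤ 2 * M := by
  have key : ∀ a b : ℕ, 1 ≤ a → a < b → b ≤ M → 1 / (M : ℝ) ≤ Real.log b - Real.log a := by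
    intro a b ha hab hb
    have ha0 : (0 : ℝ) < a := by exact_mod_cast ha
    have hb0 : (0 : ℝ) < b := by exact_mod_cast (by omega : 0 < b)
    have h1 : 1 - ((b : ℝ) / a)⁻¹ ≤ Real.log ((b : ℝ) / a) := Real.one_sub_inv_le_log_of_pos (by positivity)
    rw [Real.log_div hb0.ne' ha0.ne', inv_div] at h1
    have h2 : 1 / (M : ℝ) ≤ 1 - (a : ℝ) / b := by
      have h3 : 1 / (M : ℝ) ≤ 1 / b := one_div_le_one_div_of_le hb0 (by exact_mod_cast hb)
      have h4 : (1 : ℝ) / b ≤ 1 - (a : ℝ) / b := by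
        rw [le_sub_iff_add_le, ← add_div, div_le_one hb0]
        have : (a : ℝ) + 1 ≤ b := by exact_mod_cast hab
        linarith
      linarith
    linarith
  have hM0 : (0 : ℝ) < M := by exact_mod_cast (by omega : 0 < M)
  have hlow : 1 / (M : ℝ) ≤ |Real.log m - Real.log n| := by
    rcases lt_or_gt_of_ne hne with h | h
    · have := key m n hm h hnM
      rw [abs_sub_comm]
      exact this.trans (le_abs_self _)
    · exact (key n m hn h hmM).trans (le_abs_self _)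
  have hl : Real.log m - Real.log n ≠ 0 := by
    intro h0
    rw [h0, abs_zero] at hlow
    have : 0 < 1 / (M : ℝ) := by positivity
    linarith
  refine (K_le' hl).trans ?_
  have h5 : 1 / |Real.log m - Real.log n| ≤ M := by
    rw [div_le_iff₀ (by positivity)]
    rw [div_le_iff₀ hM0] at hlow
    linarith
  linarith

lemma int_Y (a : ℕ → ℂ) (ha : ∀ n, ‖a n‖ ≤ 1) (x k d H : ℕ) (B : ℝ)
    (hB : ∀ v ∈ V k H, (cnt k x H (pr x v) : ℝ) ≤ B) (T₀ T : ℝ) (hT : 0 ≤ T) :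
    ∫ t in T₀..(T₀ + T), Y a x k d H t ≤
      ((J k d H).card : ℝ) * (((H ^ k : ℕ) : ℝ) * (B * T + ((H ^ k : ℕ) : ℝ) * (2 * (((x + H) ^ k : ℕ) : ℝ)))) := by
  classical
  unfold Y
  rw [intervalIntegral.integral_const_mul]
  rw [intervalIntegral.integral_finsetSum (fun j _ => by
    apply Continuous.intervalIntegrable
    exact (cont_Aj a x k d H j).norm.pow 2)]
  refine mul_le_mul_of_nonneg_left ?_ (by positivity)
  have h1 : ∀ j ∈ J k d H, (∫ t in T₀..(T₀ + T), ‖Aj a x k d H j t‖ ^ 2) ≤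
      ∑ v ∈ (V k H).filter (fun v => sv d v = j), ∑ w ∈ V k H,
        K T₀ T (Real.log ((pr x v : ℕ) : ℝ) - Real.log ((pr x w : ℕ) : ℝ)) := by
    intro j _
    have h2 := mean ((V k H).filter (fun v => sv d v = j)) (fun v => ∏ i, a (x + v i))
      (fun v => Real.log ((pr x v : ℕ) : ℝ)) (fun v _ => by
        rw [norm_prod]
        exact Finset.prod_le_one (fun _ _ => norm_nonneg _) (fun i _ => ha _)) T₀ T hT
    refine h2.trans (Finset.sum_le_sum fun v _ => ?_)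
    exact Finset.sum_le_sum_of_subset_of_nonneg (Finset.filter_subset _ _)
      (fun w _ _ => norm_nonneg _)
  refine (Finset.sum_le_sum h1).trans ?_
  rw [Finset.sum_fiberwise_of_maps_to (fun v hv => sv_mem (d := d) hv)]
  have h3 : ∀ v ∈ V k H, ∑ w ∈ V k H,
      K T₀ T (Real.log ((pr x v : ℕ) : ℝ) - Real.log ((pr x w : ℕ) : ℝ)) ≤
        B * T + ((H ^ k : ℕ) : ℝ) * (2 * (((x + H) ^ k : ℕ) : ℝ)) := by
    intro v hv
    rw [← Finset.sum_filter_add_sum_filter_not (V k H) (fun w => pr x w = pr x v)]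
    refine add_le_add ?_ ?_
    · calc ∑ w ∈ (V k H).filter (fun w => pr x w = pr x v),
            K T₀ T (Real.log ((pr x v : ℕ) : ℝ) - Real.log ((pr x w : ℕ) : ℝ))
          ≤ ∑ w ∈ (V k H).filter (fun w => pr x w = pr x v), T := Finset.sum_le_sum fun w _ => K_le hT
        _ = (cnt k x H (pr x v) : ℝ) * T := by rw [Finset.sum_const, nsmul_eq_mul]; rfl
        _ ≤ B * T := by
          have := hB v hv
          gcongr
    · calc ∑ w ∈ (V k H).filter (fun w => ¬ pr x w = pr x v),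
            K T₀ T (Real.log ((pr x v : ℕ) : ℝ) - Real.log ((pr x w : ℕ) : ℝ))
          ≤ ∑ w ∈ (V k H).filter (fun w => ¬ pr x w = pr x v), 2 * (((x + H) ^ k : ℕ) : ℝ) := by
            refine Finset.sum_le_sum fun w hw => ?_
            rw [Finset.mem_filter] at hw
            exact K_far (pr_pos hv) (pr_pos hw.1) (pr_le hv) (pr_le hw.1) (fun h => hw.2 h.symm)
        _ ≤ ∑ w ∈ V k H, 2 * (((x + H) ^ k : ℕ) : ℝ) :=
            Finset.sum_le_sum_of_subset_of_nonneg (Finset.filter_subset _ _) (fun _ _ _ => by positivity)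
        _ = ((H ^ k : ℕ) : ℝ) * (2 * (((x + H) ^ k : ℕ) : ℝ)) := by
            rw [Finset.sum_const, card_V, nsmul_eq_mul]
  calc ∑ v ∈ V k H, ∑ w ∈ V k H,
      K T₀ T (Real.log ((pr x v : ℕ) : ℝ) - Real.log ((pr x w : ℕ) : ℝ))
      ≤ ∑ v ∈ V k H, (B * T + ((H ^ k : ℕ) : ℝ) * (2 * (((x + H) ^ k : ℕ) : ℝ))) := Finset.sum_le_sum h3
    _ = _ := by
        rw [Finset.sum_const, card_V, nsmul_eq_mul]

end Pool.Agent.T2H17.SI
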