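import Pool.Agent.T2H17.SI.Count

/-!
Almost all short intervals, all polynomial phases, typical twists.
-/

set_option autoImplicit false

open MeasureTheory Filter Topology Finset

namespace Pool.Agent.T2H17.SI

open Pool.Agent.T2H17.MP (V J sv mem_V sv_mem ph ph_sv K K_le K_le' mean card_J card_V)

/-- the sum of the majorants -/
noncomputable def II (a : ℕ → ℂ) (X k d H : ℕ) (t : ℝ) : ℝ := ∑ x ∈ Finset.Ico X (2 * X), Y a x k d H t

lemma cont_II (a : ℕ → ℂ) (X k d H : ℕ) : Continuous (II a X k d H) := by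
  unfold II
  have := fun x => cont_Y a x k d H
  fun_prop

lemma II_nonneg (a : ℕ → ℂ) (X k d H : ℕ) (t : ℝ) : 0 ≤ II a X k d H t := by
  unfold II
  exact Finset.sum_nonneg fun x _ => Y_nonneg a x k d H t

/-- Markov -/
lemma markov (F : ℝ → ℝ) (hc : Continuous F) (h0 : ∀ t, 0 ≤ F t) (T₀ T l I : ℝ) (hT : 0 ≤ T) (hl : 0 < l)
    (hI : ∫ t in T₀..(T₀ + T), F t ≤ I) :
    volume {t : ℝ | t ∈ Set.Icc T₀ (T₀ + T) ∧ l ≤ F t} ≤ ENNReal.ofReal (I / l) := by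
  have hiI : IntegrableOn F (Set.Icc T₀ (T₀ + T)) volume := hc.continuousOn.integrableOn_Icc
  have h1 : ENNReal.ofReal l * (volume.restrict (Set.Icc T₀ (T₀ + T))) {t | ENNReal.ofReal l ≤ ENNReal.ofReal (F t)} ≤
      ∫⁻ t in Set.Icc T₀ (T₀ + T), ENNReal.ofReal (F t) :=
    mul_meas_ge_le_lintegral₀ (hc.measurable.ennreal_ofReal.aemeasurable) _
  have h2 : ∫⁻ t in Set.Icc T₀ (T₀ + T), ENNReal.ofReal (F t) =
      ENNReal.ofReal (∫ t in T₀..(T₀ + T), F t) := by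
    rw [intervalIntegral.integral_of_le (by linarith), ← integral_Icc_eq_integral_Ioc,
      ofReal_integral_eq_lintegral_ofReal hiI (Eventually.of_forall fun t => h0 t)]
  have h3 : (volume.restrict (Set.Icc T₀ (T₀ + T))) {t | ENNReal.ofReal l ≤ ENNReal.ofReal (F t)} =
      volume {t : ℝ | t ∈ Set.Icc T₀ (T₀ + T) ∧ l ≤ F t} := by
    rw [Measure.restrict_apply (measurableSet_le measurable_const hc.measurable.ennreal_ofReal)]
    congr 1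
    ext t
    simp only [Set.mem_inter_iff, Set.mem_ofPred_eq]
    rw [ENNReal.ofReal_le_ofReal_iff (h0 t), and_comm]
  rw [h2, h3] at h1
  rw [ENNReal.ofReal_div_of_pos hl]
  rw [ENNReal.le_div_iff_mul_le (Or.inl (by simpa using hl)) (Or.inl ENNReal.ofReal_ne_top), mul_comm]
  exact h1.trans (ENNReal.ofReal_le_ofReal hI)

lemma int_II (k d : ℕ) (hk : 1 ≤ k) : ∃ C : ℝ, 0 < C ∧ ∀ (a : ℕ → ℂ), (∀ n, ‖a n‖ ≤ 1) → ∀ (X H : ℕ) (T₀ T : ℝ),
    1 ≤ H → H ≤ X → (X : ℝ) ^ (2 * k) ≤ T →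
    ∫ t in T₀..(T₀ + T), II a X k d H t ≤ C * X * T * (H : ℝ) ^ (k + 1 + d * (d + 1)) := by
  obtain ⟨C₁, hC₁, hcnt⟩ := count k hk
  refine ⟨((k : ℝ) + 1) ^ (d + 1) * (C₁ + 2 * 3 ^ k), by positivity, ?_⟩
  intro a ha X H T₀ T hH hHX hXT
  have hH1 : (1 : ℝ) ≤ H := by exact_mod_cast hH
  have hT : 0 ≤ T := le_trans (by positivity) hXT
  unfold II
  rw [intervalIntegral.integral_finsetSum (fun x _ => (cont_Y a x k d H).intervalIntegrable _ _)]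
  have hone : ∀ x ∈ Finset.Ico X (2 * X), (∫ t in T₀..(T₀ + T), Y a x k d H t) ≤
      ((k : ℝ) + 1) ^ (d + 1) * (C₁ + 2 * 3 ^ k) * T * (H : ℝ) ^ (k + 1 + d * (d + 1)) := by
    intro x hx
    rw [Finset.mem_Ico] at hx
    refine (int_Y a ha x k d H (C₁ * H) (fun v hv => hcnt x H hH (by omega) v hv) T₀ T hT).trans ?_
    have h1 := card_J k d H hH
    have h2 : ((H ^ k : ℕ) : ℝ) * (2 * (((x + H) ^ k : ℕ) : ℝ)) ≤ 2 * 3 ^ k * T := by
      have h3 : H ^ k * (2 * (x + H) ^ k) ≤ 2 * 3 ^ k * X ^ (2 * k) := by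
        calc H ^ k * (2 * (x + H) ^ k) ≤ X ^ k * (2 * (3 * X) ^ k) := by
              refine Nat.mul_le_mul (Nat.pow_le_pow_left hHX _) (Nat.mul_le_mul_left _ (Nat.pow_le_pow_left (by omega) _))
          _ = 2 * 3 ^ k * X ^ (2 * k) := by
              rw [mul_pow, two_mul k, pow_add]
              ring
      calc ((H ^ k : ℕ) : ℝ) * (2 * (((x + H) ^ k : ℕ) : ℝ)) = ((H ^ k * (2 * (x + H) ^ k) : ℕ) : ℝ) := by
            push_cast
            ring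
        _ ≤ ((2 * 3 ^ k * X ^ (2 * k) : ℕ) : ℝ) := by exact_mod_cast h3
        _ = 2 * 3 ^ k * (X : ℝ) ^ (2 * k) := by push_cast; ring
        _ ≤ 2 * 3 ^ k * T := by gcongr
    have h4 : C₁ * H * T + ((H ^ k : ℕ) : ℝ) * (2 * (((x + H) ^ k : ℕ) : ℝ)) ≤ (C₁ + 2 * 3 ^ k) * (H * T) := by
      have h5 : 2 * 3 ^ k * T ≤ 2 * 3 ^ k * (H * T) := by
        have : T ≤ H * T := le_mul_of_one_le_left hT hH1
        gcongr
      have h6 : C₁ * H * T = C₁ * (H * T) := by ring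
      rw [h6, add_mul]
      linarith
    calc ((J k d H).card : ℝ) * (((H ^ k : ℕ) : ℝ) * (C₁ * H * T + ((H ^ k : ℕ) : ℝ) * (2 * (((x + H) ^ k : ℕ) : ℝ))))
        ≤ (((k : ℝ) + 1) ^ (d + 1) * (H : ℝ) ^ (d * (d + 1))) *
            (((H ^ k : ℕ) : ℝ) * ((C₁ + 2 * 3 ^ k) * (H * T))) := by gcongr
      _ = ((k : ℝ) + 1) ^ (d + 1) * (C₁ + 2 * 3 ^ k) * T * (H : ℝ) ^ (k + 1 + d * (d + 1)) := by
          push_cast
          ring
  refine (Finset.sum_le_sum hone).trans (le_of_eq ?_)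
  rw [Finset.sum_const, Nat.card_Ico, nsmul_eq_mul]
  have : 2 * X - X = X := by omega
  rw [this]
  ring

/-- the sum over the short interval -/
lemma shift (a : ℕ → ℂ) (x H : ℕ) (P : Polynomial ℝ) (t : ℝ) :
    ∑ n ∈ Finset.Ioc x (x + H), a n * (n : ℂ) ^ ((t : ℂ) * Complex.I) *
      Complex.exp (2 * Real.pi * Complex.I * ((P.eval (n : ℝ) : ℝ) : ℂ)) =
    S a x H (P.comp (Polynomial.X + Polynomial.C (x : ℝ))) t := by
  have h1 : Finset.Ioc x (x + H) = (Finset.Icc 1 H).map (addLeftEmbedding x) := by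
    rw [Finset.map_add_left_Icc]
    ext n
    simp only [Finset.mem_Ioc, Finset.mem_Icc]
    omega
  rw [h1, Finset.sum_map]
  unfold S
  refine Finset.sum_congr rfl fun m _ => ?_
  simp only [addLeftEmbedding_apply, Polynomial.eval_comp, Polynomial.eval_add, Polynomial.eval_X, Polynomial.eval_C]
  congr 5
  push_cast
  ring

lemma shift_deg (P : Polynomial ℝ) (x : ℝ) : (P.comp (Polynomial.X + Polynomial.C x)).natDegree ≤ P.natDegree := by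
  rw [Polynomial.natDegree_comp, Polynomial.natDegree_X_add_C, mul_one]

/-- **Main theorem.** -/
theorem main (d : ℕ) (ε A : ℝ) (hε : 0 < ε) (hA : 0 < A) : ∃ C M₀ : ℕ,
    ∀ a : ℕ → ℂ, (∀ n, ‖a n‖ ≤ 1) →
    ∀ (T₀ T : ℝ) (X M : ℕ), (X : ℝ) ^ C ≤ T → M₀ ≤ M →
    volume {t : ℝ | t ∈ Set.Icc T₀ (T₀ + T) ∧ ∃ H : ℕ, M ≤ H ∧ H ≤ X ∧
      ∃ P : ℕ → Polynomial ℝ, (∀ x, (P x).natDegree ≤ d) ∧ (X : ℝ) * (H : ℝ) ^ (1 / 2 + ε) <
        ∑ x ∈ Finset.Ico X (2 * X), ‖∑ n ∈ Finset.Ioc x (x + H), a n * (n : ℂ) ^ ((t : ℂ) * Complex.I) *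
          Complex.exp (2 * Real.pi * Complex.I * (((P x).eval (n : ℝ) : ℝ) : ℂ))‖} ≤
        ENNReal.ofReal (T * (M : ℝ) ^ (-A)) := by
  obtain ⟨k₀, hk₀⟩ := exists_nat_ge ((A + 4 + d * (d + 1)) / (2 * ε))
  set k : ℕ := k₀ + 1 with hk
  have hk1 : 1 ≤ k := by omega
  have hkε : A + 4 + d * (d + 1) ≤ 2 * k * ε := by
    have h1 : (A + 4 + d * (d + 1)) / (2 * ε) ≤ (k : ℝ) := by
      refine hk₀.trans ?_
      exact_mod_cast (by omega : k₀ ≤ k)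
    rw [div_le_iff₀ (by positivity)] at h1
    linarith
  obtain ⟨C, hC, hCY⟩ := int_II k d hk1
  have hsum : Summable (fun n : ℕ => 1 / (n : ℝ) ^ 2) := Real.summable_one_div_nat_pow.mpr (by norm_num)
  set D : ℝ := ∑' n : ℕ, 1 / (n : ℝ) ^ 2 with hD
  have hD0 : 0 ≤ D := tsum_nonneg fun n => by positivity
  obtain ⟨M₁, hM₁⟩ := exists_nat_ge (C * D)
  refine ⟨2 * k, M₁ + 1, ?_⟩
  intro a ha T₀ T X M hXT hM
  have hT0 : 0 ≤ T := le_trans (by positivity) hXT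
  have hM1 : 1 ≤ M := by omega
  have hMR : (1 : ℝ) ≤ M := by exact_mod_cast hM1
  have hCD : C * D ≤ M := by
    refine hM₁.trans ?_
    exact_mod_cast (by omega : M₁ ≤ M)
  set F : Finset ℕ := Finset.Icc M X with hF
  have hsub : {t : ℝ | t ∈ Set.Icc T₀ (T₀ + T) ∧ ∃ H : ℕ, M ≤ H ∧ H ≤ X ∧
      ∃ P : ℕ → Polynomial ℝ, (∀ x, (P x).natDegree ≤ d) ∧ (X : ℝ) * (H : ℝ) ^ (1 / 2 + ε) <
        ∑ x ∈ Finset.Ico X (2 * X), ‖∑ n ∈ Finset.Ioc x (x + H), a n * (n : ℂ) ^ ((t : ℂ) * Complex.I) *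
          Complex.exp (2 * Real.pi * Complex.I * (((P x).eval (n : ℝ) : ℝ) : ℂ))‖} ⊆
      ⋃ H ∈ F, {t : ℝ | t ∈ Set.Icc T₀ (T₀ + T) ∧ (X : ℝ) * (H : ℝ) ^ (k + 2 * k * ε) ≤ II a X k d H t} := by
    rintro t ⟨ht, H, hMH, hHX, P, hP, hlt⟩
    have hH0 : (0 : ℝ) ≤ H := Nat.cast_nonneg H
    have hX0 : (0 : ℝ) < X := by exact_mod_cast (by omega : 0 < X)
    refine Set.mem_biUnion (x := H) (Finset.mem_Icc.mpr ⟨hMH, hHX⟩) ⟨ht, ?_⟩
    set s : ℕ → ℝ := fun x => ‖∑ n ∈ Finset.Ioc x (x + H), a n * (n : ℂ) ^ ((t : ℂ) * Complex.I) *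
          Complex.exp (2 * Real.pi * Complex.I * (((P x).eval (n : ℝ) : ℝ) : ℂ))‖ with hs
    have hsY : ∀ x, s x ^ (2 * k) ≤ Y a x k d H t := by
      intro x
      rw [hs]
      simp only
      rw [shift]
      exact norm_pow_le a x k d H _ ((shift_deg (P x) x).trans (hP x)) t
    have h1 : ((X : ℝ) * (H : ℝ) ^ (1 / 2 + ε)) ^ (2 * k) ≤ (∑ x ∈ Finset.Ico X (2 * X), s x) ^ (2 * k) :=
      pow_le_pow_left₀ (by positivity) hlt.le _
    have h2 : (∑ x ∈ Finset.Ico X (2 * X), s x) ^ (2 * k) ≤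
        (X : ℝ) ^ (2 * k - 1) * ∑ x ∈ Finset.Ico X (2 * X), s x ^ (2 * k) := by
      have h3 := pow_sum_le_card_mul_sum_pow (s := Finset.Ico X (2 * X)) (f := s)
        (fun x _ => norm_nonneg _) (2 * k - 1)
      have e1 : 2 * k - 1 + 1 = 2 * k := by omega
      have e2 : (Finset.Ico X (2 * X)).card = X := by
        rw [Nat.card_Ico]
        omega
      rw [e1, e2] at h3
      exact h3
    have h4 : ∑ x ∈ Finset.Ico X (2 * X), s x ^ (2 * k) ≤ II a X k d H t :=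
      Finset.sum_le_sum fun x _ => hsY x
    have h5 : ((X : ℝ) * (H : ℝ) ^ (1 / 2 + ε)) ^ (2 * k) =
        (X : ℝ) ^ (2 * k - 1) * ((X : ℝ) * (H : ℝ) ^ (k + 2 * k * ε)) := by
      have e3 : ((H : ℝ) ^ (1 / 2 + ε)) ^ (2 * k) = (H : ℝ) ^ (k + 2 * k * ε) := by
        rw [← Real.rpow_natCast, ← Real.rpow_mul hH0]
        congr 1
        push_cast
        ring
      have e4 : (X : ℝ) ^ (2 * k) = (X : ℝ) ^ (2 * k - 1) * X := by
        rw [← pow_succ]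
        congr 1
      rw [mul_pow, e3, e4]
      ring
    have h6 : (X : ℝ) ^ (2 * k - 1) * ((X : ℝ) * (H : ℝ) ^ (k + 2 * k * ε)) ≤
        (X : ℝ) ^ (2 * k - 1) * II a X k d H t := by
      rw [← h5]
      refine h1.trans (h2.trans ?_)
      gcongr
    exact le_of_mul_le_mul_left h6 (by positivity)
  refine (measure_mono hsub).trans ((measure_biUnion_finset_le _ _).trans ?_)
  have hone : ∀ H ∈ F, volume {t : ℝ | t ∈ Set.Icc T₀ (T₀ + T) ∧ (X : ℝ) * (H : ℝ) ^ (k + 2 * k * ε) ≤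
      II a X k d H t} ≤ ENNReal.ofReal (C * T * (M : ℝ) ^ (-A - 1) * (1 / (H : ℝ) ^ 2)) := by
    intro H hH
    rw [hF, Finset.mem_Icc] at hH
    have hH1 : 1 ≤ H := by omega
    have hX0 : (0 : ℝ) < X := by exact_mod_cast (by omega : 0 < X)
    have hHr : (1 : ℝ) ≤ H := by exact_mod_cast hH1
    have hH0 : (0 : ℝ) < H := by linarith
    refine (markov _ (cont_II a X k d H) (II_nonneg a X k d H) T₀ T _ _ hT0 (by positivity)
      (hCY a ha X H T₀ T hH1 hH.2 hXT)).trans ?_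
    apply ENNReal.ofReal_le_ofReal
    rw [div_le_iff₀ (by positivity)]
    have hMH : (M : ℝ) ≤ H := by exact_mod_cast hH.1
    have h1 : (H : ℝ) ^ (-A - 1) ≤ (M : ℝ) ^ (-A - 1) :=
      Real.rpow_le_rpow_of_nonpos (by linarith) hMH (by linarith)
    have h2 : (H : ℝ) ^ (k + 1 + d * (d + 1)) ≤
        (H : ℝ) ^ (-A - 1) * (1 / (H : ℝ) ^ 2) * (H : ℝ) ^ (k + 2 * k * ε) := by
      have e1 : (1 / (H : ℝ) ^ 2) = (H : ℝ) ^ (-2 : ℝ) := by
        rw [Real.rpow_neg hH0.le, one_div]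
        norm_num
      have e2 : (H : ℝ) ^ (k + 1 + d * (d + 1)) = (H : ℝ) ^ ((k : ℝ) + 1 + d * (d + 1)) := by
        rw [← Real.rpow_natCast]
        push_cast
        rfl
      rw [e1, e2, ← Real.rpow_add hH0, ← Real.rpow_add hH0]
      apply Real.rpow_le_rpow_of_exponent_le hHr
      linarith
    calc C * X * T * (H : ℝ) ^ (k + 1 + d * (d + 1))
        ≤ C * X * T * ((H : ℝ) ^ (-A - 1) * (1 / (H : ℝ) ^ 2) * (H : ℝ) ^ (k + 2 * k * ε)) := by gcongr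
      _ ≤ C * X * T * ((M : ℝ) ^ (-A - 1) * (1 / (H : ℝ) ^ 2) * (H : ℝ) ^ (k + 2 * k * ε)) := by gcongr
      _ = C * T * (M : ℝ) ^ (-A - 1) * (1 / (H : ℝ) ^ 2) * (X * (H : ℝ) ^ (k + 2 * k * ε)) := by ring
  refine (Finset.sum_le_sum hone).trans ?_
  rw [← ENNReal.ofReal_sum_of_nonneg (fun H _ => by positivity), ← Finset.mul_sum]
  apply ENNReal.ofReal_le_ofReal
  have h5 : ∑ H ∈ F, 1 / (H : ℝ) ^ 2 ≤ D := hsum.sum_le_tsum F (fun n _ => by positivity)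
  have h6 : (M : ℝ) ^ (-A - 1) * M = (M : ℝ) ^ (-A) := by
    have hM0 : (0 : ℝ) < M := by linarith
    nth_rewrite 2 [← Real.rpow_one (M : ℝ)]
    rw [← Real.rpow_add hM0]
    congr 1
    ring
  calc C * T * (M : ℝ) ^ (-A - 1) * ∑ H ∈ F, 1 / (H : ℝ) ^ 2 ≤ C * T * (M : ℝ) ^ (-A - 1) * D := by gcongr
    _ = T * (M : ℝ) ^ (-A - 1) * (C * D) := by ring
    _ ≤ T * (M : ℝ) ^ (-A - 1) * M := by gcongr
    _ = T * (M : ℝ) ^ (-A) := by rw [mul_assoc, h6]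

end Pool.Agent.T2H17.SI
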