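import Pool.Agent.T2H17.SI.Basic

/-!
The number of representations of an integer as a product of `k` elements of a short interval.
-/

set_option autoImplicit false

open MeasureTheory Filter Topology Finset

namespace Pool.Agent.T2H17.SI

open Pool.Agent.T2H17.MP (V J sv mem_V sv_mem ph ph_sv K K_le K_le' mean card_J card_V)
open Pool.Agent.T2H98.RT (b pDIV)

/-- uniqueness of the digits, for polynomials -/
lemma digits (B : ℕ) (n : ℕ) : ∀ f g : Polynomial ℕ, f.natDegree ≤ n → g.natDegree ≤ n →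
    (∀ j, f.coeff j < B) → (∀ j, g.coeff j < B) → f.eval B = g.eval B → f = g := by
  induction n with
  | zero =>
    intro f g hf hg _ _ h
    rw [Polynomial.eq_C_of_natDegree_le_zero hf, Polynomial.eq_C_of_natDegree_le_zero hg] at h ⊢
    simp only [Polynomial.eval_C] at h
    rw [h]
  | succ n ih =>
    intro f g hf hg hfB hgB h
    have hB : 0 < B := lt_of_le_of_lt (Nat.zero_le _) (hfB 0)
    have ef := Polynomial.divX_mul_X_add f
    have eg := Polynomial.divX_mul_X_add g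
    have h1 : f.divX.eval B * B + f.coeff 0 = g.divX.eval B * B + g.coeff 0 := by
      rw [← ef, ← eg] at h
      simpa using h
    have h0 : f.coeff 0 = g.coeff 0 := by
      have := congrArg (fun z => z % B) h1
      simp only [Nat.mul_add_mod_self_right, Nat.mod_eq_of_lt (hfB 0), Nat.mod_eq_of_lt (hgB 0)] at this
      exact this
    have h2 : f.divX.eval B = g.divX.eval B := by
      rw [h0] at h1
      exact Nat.eq_of_mul_eq_mul_right hB (Nat.add_right_cancel h1)
    have h3 : f.divX = g.divX := by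
      apply ih
      · rw [Polynomial.natDegree_divX_eq_natDegree_tsub_one]
        omega
      · rw [Polynomial.natDegree_divX_eq_natDegree_tsub_one]
        omega
      · intro j
        rw [Polynomial.coeff_divX]
        exact hfB _
      · intro j
        rw [Polynomial.coeff_divX]
        exact hgB _
      · exact h2
    rw [← ef, ← eg, h3, h0]

/-- the polynomial `∏ (X + v_i)` -/
noncomputable def fp {k : ℕ} (v : Fin k → ℕ) : Polynomial ℕ := ∏ i, (Polynomial.X + Polynomial.C (v i))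

lemma fp_eval {k : ℕ} (v : Fin k → ℕ) (x : ℕ) : (fp v).eval x = pr x v := by
  unfold fp pr
  rw [Polynomial.eval_prod]
  simp

lemma fp_deg {k : ℕ} (v : Fin k → ℕ) : (fp v).natDegree ≤ k := by
  unfold fp
  refine (Polynomial.natDegree_prod_le _ _).trans ?_
  calc ∑ i : Fin k, (Polynomial.X + Polynomial.C (v i) : Polynomial ℕ).natDegree ≤ ∑ _i : Fin k, 1 :=
        Finset.sum_le_sum fun i _ => by
          rw [Polynomial.natDegree_X_add_C]
    _ = k := by simp

lemma fp_coeff {k H : ℕ} {v : Fin k → ℕ} (hv : v ∈ V k H) (j : ℕ) : (fp v).coeff j ≤ (H + 1) ^ k := by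
  have h1 : (fp v).coeff j ≤ (fp v).eval 1 := by
    by_cases hj : j ∈ (fp v).support
    · rw [Polynomial.eval_eq_sum, Polynomial.sum]
      simp only [one_pow, mul_one]
      exact Finset.single_le_sum (f := fun e => (fp v).coeff e) (fun _ _ => Nat.zero_le _) hj
    · rw [Polynomial.notMem_support_iff.mp hj]
      exact Nat.zero_le _
  refine h1.trans ?_
  rw [fp_eval]
  calc pr 1 v ≤ ∏ _i : Fin k, (H + 1) := Finset.prod_le_prod' fun i _ => by
        have := (mem_V.mp hv i).2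
        omega
    _ = (H + 1) ^ k := by simp

lemma caseA {k x H : ℕ} (hx : (H + 1) ^ k < x) {v w : Fin k → ℕ} (hv : v ∈ V k H) (hw : w ∈ V k H)
    (h : pr x w = pr x v) : ∀ i, ∃ j, v j = w i := by
  have h1 : fp v = fp w := by
    apply digits x k _ _ (fp_deg v) (fp_deg w)
    · intro j
      exact lt_of_le_of_lt (fp_coeff hv j) hx
    · intro j
      exact lt_of_le_of_lt (fp_coeff hw j) hx
    · rw [fp_eval, fp_eval, h]
  intro i
  have h2 := congrArg (fun f : Polynomial ℕ => (f.map (Nat.castRingHom ℤ)).eval (-(w i : ℤ))) h1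
  simp only [fp, Polynomial.map_prod, Polynomial.eval_prod] at h2
  have h3 : ∏ j, (Polynomial.map (Nat.castRingHom ℤ) (Polynomial.X + Polynomial.C (w j))).eval (-(w i : ℤ)) = 0 := by
    apply Finset.prod_eq_zero (Finset.mem_univ i)
    simp
  rw [h3, Finset.prod_eq_zero_iff] at h2
  obtain ⟨j, _, hj⟩ := h2
  refine ⟨j, ?_⟩
  simp at hj
  have : (v j : ℤ) = w i := by linarith
  exact_mod_cast this

lemma cntA {k x H : ℕ} (hx : (H + 1) ^ k < x) {v : Fin k → ℕ} (hv : v ∈ V k H) : cnt k x H (pr x v) ≤ k ^ k := by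
  classical
  unfold cnt
  have hsub : (V k H).filter (fun w => pr x w = pr x v) ⊆
      Fintype.piFinset (fun _ : Fin k => Finset.image v Finset.univ) := by
    intro w hw
    rw [Finset.mem_filter] at hw
    rw [Fintype.mem_piFinset]
    intro i
    obtain ⟨j, hj⟩ := caseA hx hv hw.1 hw.2 i
    exact Finset.mem_image.mpr ⟨j, Finset.mem_univ _, hj⟩
  refine (Finset.card_le_card hsub).trans ?_
  rw [Fintype.card_piFinset]
  simp only [Finset.prod_const, Finset.card_univ, Fintype.card_fin]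
  refine Nat.pow_le_pow_left ?_ _
  calc (Finset.image v Finset.univ).card ≤ (Finset.univ : Finset (Fin k)).card := Finset.card_image_le
    _ = k := by simp

lemma cntB (k x H m : ℕ) : cnt k x H m ≤ b k (x + H) m := by
  classical
  unfold cnt b
  refine Finset.card_le_card_of_injOn (fun w i => x + w i) ?_ ?_
  · intro w hw
    rw [Finset.mem_coe, Finset.mem_filter] at hw
    rw [Finset.mem_coe, Finset.mem_filter]
    refine ⟨?_, hw.2⟩
    rw [Fintype.mem_piFinset]
    intro i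
    have := mem_V.mp hw.1 i
    change x + w i ∈ Finset.Icc 1 (x + H)
    rw [Finset.mem_Icc]
    omega
  · intro w _ w' _ h
    funext i
    have := congrFun h i
    simp only at this
    omega

lemma count (k : ℕ) (hk : 1 ≤ k) : ∃ C : ℝ, 0 < C ∧ ∀ x H : ℕ, 1 ≤ H → H ≤ x → ∀ v ∈ V k H,
    (cnt k x H (pr x v) : ℝ) ≤ C * H := by
  have hk0 : (0 : ℝ) < k := by exact_mod_cast hk
  obtain ⟨C₁, hC₁, hdiv, _⟩ := pDIV k (1 / (k : ℝ) ^ 2) (by positivity)
  refine ⟨(k : ℝ) ^ k + C₁ * ((2 : ℝ) ^ (k + k ^ 2)) ^ (1 / (k : ℝ) ^ 2), by positivity, ?_⟩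
  intro x H hH hHx v hv
  have hH1 : (1 : ℝ) ≤ H := by exact_mod_cast hH
  by_cases hx : (H + 1) ^ k < x
  · have h1 : (cnt k x H (pr x v) : ℝ) ≤ (k : ℝ) ^ k := by exact_mod_cast cntA hx hv
    calc (cnt k x H (pr x v) : ℝ) ≤ (k : ℝ) ^ k * 1 := by rw [mul_one]; exact h1
      _ ≤ ((k : ℝ) ^ k + C₁ * ((2 : ℝ) ^ (k + k ^ 2)) ^ (1 / (k : ℝ) ^ 2)) * H := by
          gcongr
          have : 0 ≤ C₁ * ((2 : ℝ) ^ (k + k ^ 2)) ^ (1 / (k : ℝ) ^ 2) := by positivity
          linarith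
  · rw [not_lt] at hx
    have h1 : (cnt k x H (pr x v) : ℝ) ≤ C₁ * ((pr x v : ℕ) : ℝ) ^ (1 / (k : ℝ) ^ 2) :=
      le_trans (by exact_mod_cast cntB k x H _) (hdiv _ _ (pr_pos hv))
    have h2 : (pr x v : ℕ) ≤ 2 ^ (k + k ^ 2) * H ^ (k ^ 2) := by
      calc pr x v ≤ (x + H) ^ k := pr_le hv
        _ ≤ (2 * (2 * H) ^ k) ^ k := by
            refine Nat.pow_le_pow_left ?_ _
            have : (H + 1) ^ k ≤ (2 * H) ^ k := Nat.pow_le_pow_left (by omega) _
            omega
        _ = 2 ^ (k + k ^ 2) * H ^ (k ^ 2) := by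
            rw [mul_pow, mul_pow, mul_pow, ← pow_mul, ← pow_mul, pow_add, pow_two]
            ring
    have h3 : ((pr x v : ℕ) : ℝ) ^ (1 / (k : ℝ) ^ 2) ≤ ((2 : ℝ) ^ (k + k ^ 2)) ^ (1 / (k : ℝ) ^ 2) * H := by
      have h4 : ((pr x v : ℕ) : ℝ) ≤ (2 : ℝ) ^ (k + k ^ 2) * (H : ℝ) ^ (k ^ 2) := by exact_mod_cast h2
      calc ((pr x v : ℕ) : ℝ) ^ (1 / (k : ℝ) ^ 2) ≤ ((2 : ℝ) ^ (k + k ^ 2) * (H : ℝ) ^ (k ^ 2)) ^ (1 / (k : ℝ) ^ 2) :=
            Real.rpow_le_rpow (Nat.cast_nonneg _) h4 (by positivity)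
        _ = ((2 : ℝ) ^ (k + k ^ 2)) ^ (1 / (k : ℝ) ^ 2) * ((H : ℝ) ^ (k ^ 2)) ^ (1 / (k : ℝ) ^ 2) :=
            Real.mul_rpow (by positivity) (by positivity)
        _ = ((2 : ℝ) ^ (k + k ^ 2)) ^ (1 / (k : ℝ) ^ 2) * H := by
            congr 1
            rw [← Real.rpow_natCast, ← Real.rpow_mul (by positivity)]
            push_cast
            rw [mul_one_div_cancel (by positivity), Real.rpow_one]
    calc (cnt k x H (pr x v) : ℝ) ≤ C₁ * (((2 : ℝ) ^ (k + k ^ 2)) ^ (1 / (k : ℝ) ^ 2) * H) := h1.trans (by gcongr)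
      _ = (C₁ * ((2 : ℝ) ^ (k + k ^ 2)) ^ (1 / (k : ℝ) ^ 2)) * H := by ring
      _ ≤ ((k : ℝ) ^ k + C₁ * ((2 : ℝ) ^ (k + k ^ 2)) ^ (1 / (k : ℝ) ^ 2)) * H := by
          gcongr
          have : 0 ≤ (k : ℝ) ^ k := by positivity
          linarith

end Pool.Agent.T2H17.SI
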